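import Mathlib
import Pool.Agent.JacksonH20.Global

set_option autoImplicit false

namespace Pool.Agent.Results.MP_8cb683_co.SmallDeficiency

open Pool.Agent.JacksonH20

/-- Jackson's question has a positive answer for every finite 2-edge-connected simple graph with at
least four edges in which the sum of `4 - deg v`, over the vertices `v` of degree at most three that
lie on no rich triangle, is at most five; and for every finite simple graph with a set `A` of at
least two vertices which at most three edges leave and whose deficiency is at most two. -/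
theorem result :
    ∀ (V : Type) [Fintype V] (G : SimpleGraph V),
      ((G.Connected ∧ (∀ e ∈ G.edgeSet, (G.deleteEdges {e}).Connected) ∧
          4 ≤ G.edgeSet.ncard ∧ deficiency G Finset.univ ≤ 5) ∨
        (∃ A : Finset V, 2 ≤ A.card ∧ leaving G A ≤ 3 ∧ deficiency G A ≤ 2)) →
      ∃ H : SimpleGraph V, H ≤ G ∧ 4 ≤ H.edgeSet.ncard ∧
        (∀ v : V, Even (H.neighborSet v).ncard) ∧
        (∀ u ∈ H.support, ∀ v ∈ H.support, H.Reachable u v) ∧
        ∀ x : V, x ∉ H.support →
          {p : V × V | G.Adj p.1 p.2 ∧ p.1 ∈ H.support ∧ p.2 ∉ H.support ∧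
            ∃ q : G.Walk x p.2, ∀ w ∈ q.support, w ∉ H.support}.ncard ≤ 3 := by
  intro V _ G h
  rcases h with ⟨h1, h2, h3, h4⟩ | ⟨A, h1, h2, h3⟩
  · exact global_jackson G h1 h2 h3 h4
  · exact local_jackson G A.card A le_rfl h1 h2 h3

end Pool.Agent.Results.MP_8cb683_co.SmallDeficiency
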